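import Mathlib
import Pool.Agent.Y156.L.Props
import Pool.Agent.N205.SE.Base

/-!
# Theories relative to a scheme with independent eigenvalues of Frobenius: definitions
-/

set_option autoImplicit false

namespace Pool.Agent.N205.RT

open Polynomial Pool.Agent.Y156.L

open Pool.Agent.N205.SE (Indep)

variable {K : Type} [Field K] {A : AbelianData K}

/-- The Frobenius endomorphism of `U` satisfies, on the elements considered in `InvM`, for all `i` and
`j`, a nonzero rational polynomial such that no power of a root of one of the `f l` is a product of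
powers of `q` and of roots of this polynomial (`Indep`). In `ℓ`-adic cohomology this is a condition on
the eigenvalues of the Frobenius endomorphism of `U`. -/
def IsIndependent (T : RelData A) (q s : ℕ) {I : Type} (f : I → ℤ[X]) : Prop :=
  ∀ i j : ℤ, ∃ χ : ℚ[X], χ ≠ 0 ∧ Indep q f {ρ : ℂ | aeval ρ χ = 0} ∧
    ∀ m, T.InvM (q ^ s) i j m → aeval T.frobM χ m = 0

/-- The data attached to a scheme `V` and a proper surjective generically finite morphism from `A × U`
to `V`: the groups of the theories `T` (motivic cohomology) and `R` (`ℓ`-adic cohomology) for `V`, the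
Frobenius endomorphism of `V`, the regulator, pull-backs and push-forwards. -/
structure Below (T R : RelData A) where
  /-- the sum of the groups of `V` in the theory `T` -/
  TV : Type
  [groupT : AddCommGroup TV]
  [moduleT : Module ℚ TV]
  /-- the sum of the groups of `V` in the theory `R` -/
  RV : Type
  [groupR : AddCommGroup RV]
  [moduleR : Module ℚ RV]
  /-- the group `H^i(V, j)` in the theory `T` -/
  grT : ℤ → ℤ → Submodule ℚ TV
  /-- the group `H^i(V, j)` in the theory `R` -/
  grR : ℤ → ℤ → Submodule ℚ RV
  /-- the Frobenius endomorphism of `V` -/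
  frob : RV → RV
  /-- the regulator for `V` -/
  reg : TV →ₗ[ℚ] RV
  /-- the push-forward from `A × U` to `V` -/
  pushT : T.M →ₗ[ℚ] TV
  /-- the push-forward from `A × U` to `V` -/
  pushR : R.M →ₗ[ℚ] RV
  /-- the pull-back from `V` to `A × U` -/
  pullR : RV →ₗ[ℚ] R.M

attribute [instance] Below.groupT Below.moduleT Below.groupR Below.moduleR

/-- The formal properties of the pull-backs and push-forwards; `n` is the degree of the morphism. -/
structure IsBelow {T R : RelData A} (ρ : Regulator T R) (V : Below T R) : Prop where
  push_mem : ∀ {i j : ℤ} {m : T.M}, T.DegM i j m → V.pushT m ∈ V.grT i j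
  pull_mem : ∀ {i j : ℤ} {w : V.RV}, w ∈ V.grR i j → R.DegM i j (V.pullR w)
  pull_frob : ∀ w : V.RV, R.app A.frob (R.FM (V.pullR w)) = V.pullR (V.frob w)
  reg_push : ∀ m : T.M, V.reg (V.pushT m) = V.pushR (ρ.regM m)
  degree : ∃ n : ℚ, n ≠ 0 ∧ ∀ w : V.RV, V.pushR (V.pullR w) = n • w

/-- The regulator `H^i(V, j) → R^i(V, j)` is onto the Frobenius invariants. -/
def OntoBelow {T R : RelData A} (V : Below T R) (Q : ℕ) (i j : ℤ) : Prop :=
  ∀ w : V.RV, w ∈ V.grR i j → V.frob w = (Q : ℚ) ^ j • w → ∃ v : V.TV, v ∈ V.grT i j ∧ V.reg v = w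

/-- `TateForIndep q f`: for every abelian variety `A` as in `IsAbelian` there are finitely
many products `D t` of divisor classes on `A`, such that for all `R` (cohomology) relative to any
scheme `U`, with the formal properties and independent eigenvalues of Frobenius: the Kunneth formula
holds, and for all `T` (motivic cohomology) relative to `U` with a regulator to `R`, and all `i`, `j`:
* the regulator of `A × U` in bidegree `(i, j)` is onto the Frobenius invariants if and only if those
  of `U` in the bidegrees `(i - 2 k, j - k)`, `0 ≤ k ≤ dim A`, are;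
* if this is the case, then also the regulator of `V` in bidegree `(i, j)` is onto the Frobenius
  invariants, for all schemes `V` with a proper surjective generically finite morphism from
  `A × U` to `V`. -/
def TateForIndep (q : ℕ) {I : Type} (f : I → ℤ[X]) : Prop :=
  ∀ (K : Type) [Field K] [CharZero K] (A : AbelianData K) (s : ℕ), IsAbelian A q s f →
    ∃ (J : Type) (_ : Fintype J) (c : J → ℕ) (D : J → A.CH), IsFamily A c D ∧
      ∀ R : RelData A, IsRel (q ^ s) R → IsIndependent R q s f → R.Kunneth (q ^ s) c D ∧
        ∀ (T : RelData A) (ρ : Regulator T R), IsRel (q ^ s) T → IsRegulator ρ → ∀ i j : ℤ,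
          (OntoM ρ (q ^ s) i j ↔
            ∀ k : ℕ, k ≤ A.dim → OntoN ρ (q ^ s) (i - 2 * k) (j - k)) ∧
          ((∀ k : ℕ, k ≤ A.dim → OntoN ρ (q ^ s) (i - 2 * k) (j - k)) →
            ∀ V : Below T R, IsBelow ρ V → OntoBelow V (q ^ s) i j)

/-- `PerfectForIndep q f`: for every abelian variety `A` as in `IsAbelian` there are
finitely many products `D t` of divisor classes on `A`, such that for all `T` (motivic cohomology)
relative to any smooth projective scheme `Z` of any dimension `d`, with the formal properties, pure
and with independent eigenvalues of Frobenius: the Kunneth formula holds, and for all `i`, `j` the cup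
product pairing `H^i(A × Z, j) × H^(2 (dim A + d) - i)(A × Z, dim A + d - j) → ℚ` is perfect if and
only if the pairings `H^(i - 2 k)(Z, j - k) × H^(2 d - (i - 2 k))(Z, d - (j - k)) → ℚ`,
`0 ≤ k ≤ dim A`, are perfect. -/
def PerfectForIndep (q : ℕ) {I : Type} (f : I → ℤ[X]) : Prop :=
  ∀ (K : Type) [Field K] [CharZero K] (A : AbelianData K) (s : ℕ), IsAbelian A q s f →
    ∃ (J : Type) (_ : Fintype J) (c : J → ℕ) (D : J → A.CH), IsFamily A c D ∧
      ∀ T : RelData A, IsRel (q ^ s) T → T.IsPure (q ^ s) → IsIndependent T q s f →
        T.Kunneth (q ^ s) c D ∧ ∀ B : CupProduct T, IsCupProduct B →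
          ∀ d i j : ℤ, PerfectM B (A.dim + d) i j ↔
            ∀ k : ℕ, k ≤ A.dim → PerfectN B d (i - 2 * k) (j - k)

end Pool.Agent.N205.RT
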