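import Mathlib
import Pool.Agent.Y156.L.Props
import Pool.Agent.N205.RT.Defs

/-!
# Orders of zeta functions and ranks of higher Chow groups: definitions
-/

set_option autoImplicit false

namespace Pool.Agent.N205.RT

open Polynomial Pool.Agent.Y156.L

open Pool.Agent.N205.SE (Indep)

section order

variable {K : Type} [Field K]

/-- `N n = ∑ W(b) b^n` for all `n ≥ 1`, with multiplicities `W(b)` in `ℤ`: the function
`exp (∑ N n t^n / n)` is the product of the `(1 - b t)^(-W(b))`. -/
def IsSpectrum (N : ℕ → ℤ) (W : K →₀ ℤ) : Prop :=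
  ∀ n, 1 ≤ n → (N n : K) = W.sum fun b m => (m : K) * b ^ n

/-- If the `N n` are the numbers of points of a scheme over the extensions of degree `n` of the field
with `Q` elements, then `-c` is the order of its zeta function at `s = m`. (The coefficients are in a
field `K` of characteristic zero.) -/
def HasOrder (K : Type) [Field K] (Q : ℕ) (N : ℕ → ℤ) (m c : ℤ) : Prop :=
  ∃ W : K →₀ ℤ, IsSpectrum N W ∧ W ((Q : K) ^ m) = c

end order

variable {K : Type} [Field K] {A : AbelianData K}

/-- The eigenspace of the Frobenius endomorphism on the cohomology of `A` for the eigenvalue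
`Q ^ j`. -/
noncomputable def eigenspace (A : AbelianData K) (Q j : ℕ) : Submodule K A.H :=
  LinearMap.ker ((A.frobH.toLinearMap : A.H →ₗ[K] A.H) - (Q : K) ^ j • LinearMap.id)

/-- The numbers of points `N n` of `A` over the extensions of degree `n` satisfy the trace formula: the
multiplicities `W(b)` are zero if `b` is not an eigenvalue of Frobenius on the cohomology of `A`, and
the multiplicity of `Q ^ j` is the dimension of the eigenspace. -/
def IsPointCount (A : AbelianData K) (Q : ℕ) (N : ℕ → ℤ) : Prop :=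
  ∃ W : K →₀ ℤ, IsSpectrum N W ∧ (∀ b, W b ≠ 0 → ∃ a : A.H, a ≠ 0 ∧ A.frobH a = b • a) ∧
    ∀ j : ℕ, W ((Q : K) ^ j) = Module.finrank K (eigenspace A Q j)

/-- The numbers of points `N n` of `U` are the power sums of numbers with multiplicities, which are
roots of a nonzero rational polynomial with independent roots (`Indep`). By the trace formula one can
take the eigenvalues of Frobenius on the cohomology of `U` with compact supports. -/
def IsIndepCount (K : Type) [Field K] [CharZero K] (q : ℕ) {I : Type} (f : I → ℤ[X])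
    (N : ℕ → ℤ) : Prop :=
  ∃ (W : K →₀ ℤ) (χ : ℚ[X]), IsSpectrum N W ∧ χ ≠ 0 ∧ Indep q f {ρ : ℂ | aeval ρ χ = 0} ∧
    ∀ b, W b ≠ 0 → aeval b χ = 0

/-- The groups `CH^r(U, k)` are zero for `r < 0`. -/
def IsEffective (T : RelData A) : Prop := ∀ i j : ℤ, j < 0 → T.grN i j = ⊥

/-- The ranks of the groups `CH^r(U, k) = H^(2 r - k)(U, r)` are finite and almost all are zero. -/
def FiniteN (T : RelData A) (r : ℤ) : Prop :=
  (∀ k : ℕ, Module.Finite ℚ (T.grN (2 * r - k) r)) ∧
    ∃ k₀ : ℕ, ∀ k : ℕ, k₀ ≤ k → T.grN (2 * r - k) r = ⊥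

/-- The ranks of the groups `CH^r(A × U, k)` are finite and almost all are zero. -/
def FiniteM (T : RelData A) (r : ℤ) : Prop :=
  (∀ k : ℕ, Module.Finite ℚ (T.grM (2 * r - k) r)) ∧
    ∃ k₀ : ℕ, ∀ k : ℕ, k₀ ≤ k → T.grM (2 * r - k) r = ⊥

/-- The sum of the `(-1)^k rank CH^r(U, k)`. -/
noncomputable def chiN (T : RelData A) (r : ℤ) : ℤ :=
  ∑ᶠ k : ℕ, (-1) ^ k * (Module.finrank ℚ (T.grN (2 * r - k) r) : ℤ)

/-- The sum of the `(-1)^k rank CH^r(A × U, k)`. -/
noncomputable def chiM (T : RelData A) (r : ℤ) : ℤ :=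
  ∑ᶠ k : ℕ, (-1) ^ k * (Module.finrank ℚ (T.grM (2 * r - k) r) : ℤ)

/-- The assertion of Q2 for `U` and `r`; `e` is the dimension of `U` and the `v n` are the numbers of
points of `U`. -/
def BlochSouleN (T : RelData A) (Q : ℕ) (v : ℕ → ℤ) (e r : ℤ) : Prop :=
  FiniteN T r ∧ HasOrder K Q v (e - r) (chiN T r)

/-- The assertion of Q2 for `A × U` and `r`; `e` is the dimension of `U`, and the `u n` and `v n` are
the numbers of points of `A` and `U`. -/
def BlochSouleM (T : RelData A) (Q : ℕ) (u v : ℕ → ℤ) (e r : ℤ) : Prop :=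
  FiniteM T r ∧ HasOrder K Q (fun n => u n * v n) (A.dim + e - r) (chiM T r)

/-- The conclusions:
* the ranks of the `CH^r(A × U, k)` are finite and almost all are zero if and only if this is true for
  the `CH^(r - c)(U, k)`, `0 ≤ c ≤ dim A`;
* Q2 for `U` and `r - c`, `0 ≤ c ≤ dim A`, implies Q2 for `A × U` and `r`;
* for all `R`, Q2 is true for `A × U` and all `r ≤ R` if and only if it is true for `U` and all
  `r ≤ R`;
* Q2 is true for `A × U` (and all `r`) if and only if it is true for `U`. -/
structure BlochSouleReduction (T : RelData A) (Q : ℕ) (u v : ℕ → ℤ) (e : ℤ) : Prop where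
  ranks : ∀ r : ℤ, FiniteM T r ↔ ∀ c : ℕ, c ≤ A.dim → FiniteN T (r - c)
  formula : ∀ r : ℤ, (∀ c : ℕ, c ≤ A.dim → BlochSouleN T Q v e (r - c)) →
    BlochSouleM T Q u v e r
  below : ∀ R : ℤ, (∀ r ≤ R, BlochSouleM T Q u v e r) ↔ ∀ r ≤ R, BlochSouleN T Q v e r
  all : (∀ r : ℤ, BlochSouleM T Q u v e r) ↔ ∀ r : ℤ, BlochSouleN T Q v e r

/-- `BlochSouleForIndep q f`: for every abelian variety `A` as in `IsAbelian`, with numbers of points
`u n`, and all schemes `U`, of dimension `e`, with numbers of points `v n` as in `IsIndepCount`, and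
higher Chow groups `T` (relative to `U`) with the formal properties and with independent eigenvalues of
Frobenius, `BlochSouleReduction` holds. -/
def BlochSouleForIndep (q : ℕ) {I : Type} (f : I → ℤ[X]) : Prop :=
  ∀ (K : Type) [Field K] [CharZero K] (A : AbelianData K) (s : ℕ), IsAbelian A q s f →
    ∀ u : ℕ → ℤ, IsPointCount A (q ^ s) u → ∀ v : ℕ → ℤ, IsIndepCount K q f v →
      ∀ T : RelData A, IsRel (q ^ s) T → T.IsPure (q ^ s) → IsEffective T →
        IsIndependent T q s f → ∀ e : ℤ, BlochSouleReduction T (q ^ s) u v e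

end Pool.Agent.N205.RT
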