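import Mathlib
import Pool.Agent.Y156.L.Thms
import Pool.Agent.N205.RT.BSDefs

/-!
# Ranks of higher Chow groups of products
-/

set_option autoImplicit false
set_option linter.unusedSectionVars false

namespace Pool.Agent.N205.RT

open Module Polynomial Pool.Agent.Y156.L

variable {K : Type} [Field K] [CharZero K] {A : AbelianData K} {J : Type} [Fintype J]
  {c : J → ℕ} {D E : J → A.CH} {Q : ℕ} {T : RelData A}

/-- the Kunneth formula as an equivalence -/
theorem exists_equiv (h : IsDual A c D E) (hT : IsRel Q T)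
    (hexp : ∀ (i j : ℤ), ∀ m ∈ T.grM i j, m = ∑ t, T.times (D t) (T.pair (E t) m)) (i j : ℤ)
    (i' j' : J → ℤ) (hi : ∀ t, i - 2 * c t = i' t) (hj : ∀ t, j - c t = j' t) :
    Nonempty ((∀ t, T.grN (i' t) (j' t)) ≃ₗ[ℚ] T.grM i j) := by
  classical
  obtain rfl : (fun t => i - 2 * (c t : ℤ)) = i' := funext hi
  obtain rfl : (fun t => j - (c t : ℤ)) = j' := funext hj
  let f : (∀ t, T.grN (i - 2 * (c t : ℤ)) (j - (c t : ℤ))) →ₗ[ℚ] T.grM i j :=
    ∑ t, (timesMap hT (h.left t) _ _ i j (sub_add_cancel _ _) (sub_add_cancel _ _)).comp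
      (LinearMap.proj t)
  have hf : ∀ z, ((f z : T.grM i j) : T.M) = ∑ t, T.times (D t) (z t : T.N) := by
    intro z
    change ((∑ t, (timesMap hT (h.left t) _ _ i j (sub_add_cancel _ _) (sub_add_cancel _ _)).comp
      (LinearMap.proj t)) z : T.grM i j).1 = _
    rw [LinearMap.sum_apply, AddSubmonoidClass.coe_finsetSum]
    rfl
  refine ⟨LinearEquiv.ofBijective f ⟨?_, ?_⟩⟩
  · rw [injective_iff_map_eq_zero]
    intro z hz
    funext t
    apply Subtype.ext
    have h1 : ∑ t, T.times (D t) (z t : T.N) = 0 := by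
      rw [← hf, hz]
      rfl
    have h2 := pair_sum hT h t fun t => (z t : T.N)
    rw [h1, map_zero] at h2
    exact h2.symm
  · intro m
    refine ⟨fun t => ⟨T.pair (E t) m, hT.pair_mem (by have := h.le t; omega) (h.right t) m.2⟩, ?_⟩
    apply Subtype.ext
    rw [hf]
    exact (hexp i j m m.2).symm

section

variable (h : IsDual A c D E) (hT : IsRel Q T)
    (hexp : ∀ (i j : ℤ), ∀ m ∈ T.grM i j, m = ∑ t, T.times (D t) (T.pair (E t) m))

include h hT hexp

theorem equiv_chow (r : ℤ) (k : ℕ) :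
    Nonempty ((∀ t, T.grN (2 * (r - c t) - k) (r - c t)) ≃ₗ[ℚ] T.grM (2 * r - k) r) :=
  exists_equiv h hT hexp _ _ _ _ (fun t => by ring) fun t => rfl

theorem finite_chow (r : ℤ) (k : ℕ) : Module.Finite ℚ (T.grM (2 * r - k) r) ↔
    ∀ t, Module.Finite ℚ (T.grN (2 * (r - c t) - k) (r - c t)) := by
  classical
  obtain ⟨e⟩ := equiv_chow h hT hexp r k
  constructor
  · intro hf j
    have h1 : Module.Finite ℚ (∀ t, T.grN (2 * (r - c t) - k) (r - c t)) :=
      Module.Finite.equiv e.symm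
    exact Module.Finite.of_surjective
      (LinearMap.proj (R := ℚ) (φ := fun t => T.grN (2 * (r - c t) - k) (r - c t)) j)
      (LinearMap.proj_surjective j)
  · intro hf
    have h1 : Module.Finite ℚ (∀ t, T.grN (2 * (r - c t) - k) (r - c t)) := Module.Finite.pi
    exact Module.Finite.equiv e

theorem finrank_chow (r : ℤ) (k : ℕ)
    (hf : ∀ t, Module.Finite ℚ (T.grN (2 * (r - c t) - k) (r - c t))) :
    Module.finrank ℚ (T.grM (2 * r - k) r) =
      ∑ t, Module.finrank ℚ (T.grN (2 * (r - c t) - k) (r - c t)) := by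
  obtain ⟨e⟩ := equiv_chow h hT hexp r k
  rw [← e.finrank_eq]
  exact Module.finrank_pi_fintype ℚ

theorem bot_chow (r : ℤ) (k : ℕ) : T.grM (2 * r - k) r = ⊥ ↔
    ∀ t, T.grN (2 * (r - c t) - k) (r - c t) = ⊥ := by
  classical
  obtain ⟨e⟩ := equiv_chow h hT hexp r k
  rw [← Submodule.subsingleton_iff_eq_bot, ← e.toEquiv.subsingleton_congr]
  simp only [← Submodule.subsingleton_iff_eq_bot]
  constructor
  · intro hs t
    refine ⟨fun a b => ?_⟩
    have h1 := hs.elim (Pi.single t a) (Pi.single t b)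
    have h2 := congrFun h1 t
    rwa [Pi.single_eq_same, Pi.single_eq_same] at h2
  · intro hs
    exact ⟨fun a b => funext fun t => (hs t).elim _ _⟩

theorem finiteM_iff (r : ℤ) : FiniteM T r ↔ ∀ t, FiniteN T (r - c t) := by
  classical
  constructor
  · rintro ⟨h1, k0, h2⟩ t
    exact ⟨fun k => (finite_chow h hT hexp r k).1 (h1 k) t, k0, fun k hk =>
      (bot_chow h hT hexp r k).1 (h2 k hk) t⟩
  · intro h1
    choose h2 k0 h3 using h1
    refine ⟨fun k => (finite_chow h hT hexp r k).2 fun t => h2 t k, Finset.univ.sup k0,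
      fun k hk => (bot_chow h hT hexp r k).2 fun t => h3 t k ?_⟩
    exact (Finset.le_sup (Finset.mem_univ t)).trans hk

end

theorem chiN_eq {r : ℤ} {k0 : ℕ} (h : ∀ k : ℕ, k0 ≤ k → T.grN (2 * r - k) r = ⊥) :
    chiN T r = ∑ k ∈ Finset.range k0, (-1) ^ k *
      (Module.finrank ℚ (T.grN (2 * r - k) r) : ℤ) := by
  unfold chiN
  refine finsum_eq_sum_of_support_subset _ ?_
  intro k hk
  rw [Finset.coe_range, Set.mem_Iio]
  by_contra hcon
  apply hk
  have h1 := h k (not_lt.1 hcon)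
  beta_reduce
  rw [h1]
  simp

theorem chiM_eq {r : ℤ} {k0 : ℕ} (h : ∀ k : ℕ, k0 ≤ k → T.grM (2 * r - k) r = ⊥) :
    chiM T r = ∑ k ∈ Finset.range k0, (-1) ^ k *
      (Module.finrank ℚ (T.grM (2 * r - k) r) : ℤ) := by
  unfold chiM
  refine finsum_eq_sum_of_support_subset _ ?_
  intro k hk
  rw [Finset.coe_range, Set.mem_Iio]
  by_contra hcon
  apply hk
  have h1 := h k (not_lt.1 hcon)
  beta_reduce
  rw [h1]
  simp

theorem chiM_sum (h : IsDual A c D E) (hT : IsRel Q T)
    (hexp : ∀ (i j : ℤ), ∀ m ∈ T.grM i j, m = ∑ t, T.times (D t) (T.pair (E t) m))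
    (r : ℤ) (hf : ∀ t, FiniteN T (r - c t)) : chiM T r = ∑ t, chiN T (r - c t) := by
  classical
  choose h2 k0 h3 using hf
  have h4 : ∀ (t : J) (k : ℕ), Finset.univ.sup k0 ≤ k →
      T.grN (2 * (r - c t) - k) (r - c t) = ⊥ := fun t k hk =>
    h3 t k ((Finset.le_sup (Finset.mem_univ t)).trans hk)
  have h5 : ∀ k : ℕ, Finset.univ.sup k0 ≤ k → T.grM (2 * r - k) r = ⊥ := fun k hk =>
    (bot_chow h hT hexp r k).2 fun t => h4 t k hk
  rw [chiM_eq h5, Finset.sum_congr rfl fun t _ => chiN_eq (h4 t), Finset.sum_comm]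
  refine Finset.sum_congr rfl fun k _ => ?_
  rw [finrank_chow h hT hexp r k fun t => h2 t k]
  push_cast
  rw [Finset.mul_sum]

end Pool.Agent.N205.RT
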