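import Mathlib
import Pool.Agent.N205.RT.BSDefs

/-!
# Spectra
-/

set_option autoImplicit false
set_option linter.unusedSectionVars false

namespace Pool.Agent.N205.RT

variable {K : Type} [Field K]

/-- the power sum of a virtual set of numbers -/
noncomputable def ev (K : Type) [Field K] (n : ℕ) : MonoidAlgebra ℤ K →ₐ[ℤ] K :=
  MonoidAlgebra.lift ℤ K K (powMonoidHom n)

theorem ev_apply (n : ℕ) (W : MonoidAlgebra ℤ K) :
    ev K n W = W.coeff.sum fun b m => (m : K) * b ^ n := by
  rw [ev, MonoidAlgebra.lift_apply]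
  refine Finsupp.sum_congr fun b _ => ?_
  rw [zsmul_eq_mul]
  rfl

/-- `N n = ∑ W(b) b^n` for `n ≥ 1` -/
def IsSp (N : ℕ → ℤ) (W : MonoidAlgebra ℤ K) : Prop := ∀ n, 1 ≤ n → (N n : K) = ev K n W

theorem isSp_iff {N : ℕ → ℤ} {W : MonoidAlgebra ℤ K} : IsSp N W ↔ IsSpectrum N W.coeff := by
  unfold IsSp IsSpectrum
  simp only [ev_apply]

theorem IsSp.mul {N N' : ℕ → ℤ} {W W' : MonoidAlgebra ℤ K} (h : IsSp N W) (h' : IsSp N' W') :
    IsSp (fun n => N n * N' n) (W * W') := by
  intro n hn
  beta_reduce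
  rw [map_mul, ← h n hn, ← h' n hn, Int.cast_mul]

/-- the virtual set is determined by the power sums -/
theorem IsSp.unique [CharZero K] {N : ℕ → ℤ} {W W' : MonoidAlgebra ℤ K} (h : IsSp N W)
    (h' : IsSp N W') {b : K} (hb : b ≠ 0) : W.coeff b = W'.coeff b := by
  classical
  have hli := linearIndependent_monoidHom (Multiplicative ℕ) K
  have hinj : Function.Injective (powersHom K) := (powersHom K).injective
  have hli2 := hli.comp (powersHom K) hinj
  set D := W - W' with hD
  have h0 : ∀ n, 1 ≤ n → ev K n D = 0 := by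
    intro n hn
    rw [hD, map_sub, ← h n hn, ← h' n hn, sub_self]
  have h1 : ∑ b ∈ D.coeff.support, ((D.coeff b : K) * b) •
      ((fun f : Multiplicative ℕ →* K => (f : Multiplicative ℕ → K)) ∘ (powersHom K)) b = 0 := by
    funext n
    rw [Finset.sum_apply, Pi.zero_apply]
    have h2 := h0 (n.toAdd + 1) (by omega)
    rw [ev_apply, Finsupp.sum] at h2
    rw [← h2]
    refine Finset.sum_congr rfl fun b _ => ?_
    simp only [Function.comp_apply, Pi.smul_apply, powersHom_apply, smul_eq_mul]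
    ring
  have h2 : D.coeff b = 0 := by
    by_contra hne
    have h3 := linearIndependent_iff'.1 hli2 D.coeff.support _ h1 b
      (Finsupp.mem_support_iff.2 hne)
    rcases mul_eq_zero.1 h3 with h4 | h4
    · exact hne (by exact_mod_cast h4)
    · exact hb h4
  rw [hD] at h2
  have h3 : (W - W').coeff b = W.coeff b - W'.coeff b := rfl
  rw [h3, sub_eq_zero] at h2
  exact h2

/-- the multiplicities of powers of `Q` in a product -/
theorem coeff_conv {J : Type} [Fintype J] {w : J → ℕ} {Q : ℕ} {W V : MonoidAlgebra ℤ K}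
    (hQ0 : (Q : K) ≠ 0) (hQinj : ∀ {a b : ℕ}, (Q : K) ^ a = (Q : K) ^ b → a = b)
    (hW : ∀ l : ℕ, W.coeff ((Q : K) ^ l) = Nat.card {j // w j = l}) (m : ℤ)
    (hno : ∀ a b, W.coeff a ≠ 0 → V.coeff b ≠ 0 → a * b = (Q : K) ^ m →
      ∃ l : ℕ, a = (Q : K) ^ l) :
    (W * V).coeff ((Q : K) ^ m) = ∑ j, V.coeff ((Q : K) ^ (m - (w j : ℕ))) := by
  classical
  set S : MonoidAlgebra ℤ K := ∑ j, MonoidAlgebra.single ((Q : K) ^ w j) 1 with hS
  have hScoeff : ∀ b, S.coeff b = ∑ j, if (Q : K) ^ w j = b then (1 : ℤ) else 0 := by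
    intro b
    rw [hS, MonoidAlgebra.coeff_sum, Finsupp.finsetSum_apply]
    refine Finset.sum_congr rfl fun j _ => ?_
    rw [MonoidAlgebra.coeff_single, Finsupp.single_apply]
  have hSl : ∀ l : ℕ, S.coeff ((Q : K) ^ l) = Nat.card {j // w j = l} := by
    intro l
    rw [hScoeff, Finset.sum_boole, Nat.card_eq_fintype_card, Fintype.card_subtype]
    congr 2
    ext j
    simp only [Finset.mem_filter, Finset.mem_univ, true_and]
    exact ⟨fun h => hQinj h, fun h => by rw [h]⟩
  have hWS : W = S + (W - S) := by rw [add_sub_cancel]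
  have h1 : ((W - S) * V).coeff ((Q : K) ^ m) = 0 := by
    rw [MonoidAlgebra.coeff_mul, Finsupp.sum]
    refine Finset.sum_eq_zero fun a ha => ?_
    rw [Finsupp.sum]
    refine Finset.sum_eq_zero fun b hb => ?_
    rw [if_neg]
    intro heq
    have ha' := Finsupp.mem_support_iff.1 ha
    have hb' := Finsupp.mem_support_iff.1 hb
    have hsub : (W - S).coeff a = W.coeff a - S.coeff a := rfl
    rw [hsub] at ha'
    by_cases hpow : ∃ l : ℕ, a = (Q : K) ^ l
    · obtain ⟨l, rfl⟩ := hpow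
      exact ha' (by rw [hW, hSl, sub_self])
    · have hSa : S.coeff a = 0 := by
        rw [hScoeff]
        refine Finset.sum_eq_zero fun j _ => ?_
        rw [if_neg]
        intro h0
        exact hpow ⟨_, h0.symm⟩
      rw [hSa, sub_zero] at ha'
      exact hpow (hno a b ha' hb' heq)
  rw [hWS, add_mul, MonoidAlgebra.coeff_add, Finsupp.add_apply, h1, add_zero, hS, Finset.sum_mul,
    MonoidAlgebra.coeff_sum, Finsupp.finsetSum_apply]
  refine Finset.sum_congr rfl fun j _ => ?_
  rw [MonoidAlgebra.coeff_single_mul_eq_mul_coeff ((Q : K) ^ (m - (w j : ℕ))), one_mul]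
  intro b _
  rw [zpow_sub₀ hQ0, zpow_natCast]
  constructor
  · intro h
    rw [← h, mul_div_cancel_left₀]
    exact pow_ne_zero _ hQ0
  · rintro rfl
    rw [mul_div_cancel₀]
    exact pow_ne_zero _ hQ0

end Pool.Agent.N205.RT
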