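import Mathlib
import Pool.Agent.N205.RT.Main
import Pool.Agent.N205.RT.Spec
import Pool.Agent.N205.RT.Ranks

/-!
# Orders of zeta functions and ranks of higher Chow groups
-/

set_option autoImplicit false
set_option linter.unusedSectionVars false

namespace Pool.Agent.N205.RT

open Module Polynomial Pool.Agent.Y156.L Pool.Agent.W484.TB Pool.Agent.W484.HS
  Pool.Agent.W521.Frob Pool.Agent.W521.Count Pool.Agent.W521.Bad Pool.Agent.W521.Descent
  Pool.Agent.W521.Density

open Pool.Agent.N205.SE (Indep)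

variable {K : Type} [Field K] [CharZero K] {A : AbelianData K}

section eig

variable {J : Type} [Fintype J] {c : J → ℕ} {D E : J → A.CH}

/-- the classes of a dual system are linearly independent -/
theorem linInd_dual {q s : ℕ} {I : Type} {f : I → ℤ[X]} (hA : IsAbelian A q s f)
    (h : IsDual A c D E) : LinearIndependent K fun j => A.cl (E j) := by
  classical
  rw [Fintype.linearIndependent_iff]
  intro x hx i
  have h1 : A.tr (A.cl (D i) * ∑ j, x j • A.cl (E j)) = x i := by
    rw [Finset.mul_sum, map_sum, Finset.sum_eq_single i]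
    · rw [mul_smul_comm, map_smul, ← map_mul, hA.tr_cl, h.eq, Rat.cast_one, smul_eq_mul, mul_one]
    · intro j _ hj
      rw [mul_smul_comm, map_smul, ← map_mul, hA.tr_cl, h.ne i j (Ne.symm hj), Rat.cast_zero,
        smul_zero]
    · intro h2
      exact absurd (Finset.mem_univ _) h2
  rw [hx, mul_zero, map_zero] at h1
  exact h1.symm

theorem pow_inj {Q : ℕ} (hQ : 1 < Q) {a b : ℕ} (h : (Q : K) ^ a = (Q : K) ^ b) : a = b := by
  have h5 : ((Q ^ a : ℕ) : K) = ((Q ^ b : ℕ) : K) := by
    push_cast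
    exact h
  exact Nat.pow_right_injective hQ (Nat.cast_injective h5)

theorem mem_eigenspace {Q l : ℕ} {a : A.H} :
    a ∈ eigenspace A Q l ↔ A.frobH a = (Q : K) ^ l • a := by
  unfold eigenspace
  rw [LinearMap.mem_ker, LinearMap.sub_apply, sub_eq_zero]
  exact Iff.rfl

/-- the dimensions of the eigenspaces -/
theorem finrank_eig {q s : ℕ} {I : Type} {f : I → ℤ[X]} (hA : IsAbelian A q s f)
    (h : IsDual A c D E)
    (hspan : ∀ l, eigenspace A (q ^ s) l ≤ Submodule.span K
      {a | ∃ j, A.dim - c j = l ∧ a = A.cl (E j)}) (l : ℕ) :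
    finrank K (eigenspace A (q ^ s) l) = Nat.card {j // A.dim - c j = l} := by
  classical
  have hli := linInd_dual hA h
  have hli2 : LinearIndependent K (fun j : {j // A.dim - c j = l} => A.cl (E j)) :=
    hli.comp _ Subtype.val_injective
  have h1 : eigenspace A (q ^ s) l = Submodule.span K
      (Set.range fun j : {j // A.dim - c j = l} => A.cl (E j)) := by
    refine le_antisymm ((hspan l).trans (Submodule.span_mono ?_)) (Submodule.span_le.2 ?_)
    · rintro _ ⟨j, hj, rfl⟩
      exact ⟨⟨j, hj⟩, rfl⟩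
    · rintro _ ⟨⟨j, hj⟩, rfl⟩
      change A.cl (E j) ∈ eigenspace A (q ^ s) l
      rw [mem_eigenspace, ← hj]
      exact hA.frob_cl (h.right j)
  rw [h1, finrank_span_eq_card hli2, Nat.card_eq_fintype_card]

end eig

section basis

variable {n : ℕ} (b : Basis (Fin n) K A.H) (α : Fin n → K)
  (hb : ∀ t, A.frobH (b t) = α t • b t)

include hb

theorem repr_eig {a : A.H} {β : K} (ha : A.frobH a = β • a) (t : Fin n)
    (ht : b.repr a t ≠ 0) : α t = β := by
  have h1 : b.repr (A.frobH a) t = b.repr a t * α t := by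
    conv_lhs => rw [← b.sum_repr a]
    rw [map_sum, map_sum, Finsupp.finsetSum_apply, Finset.sum_eq_single t]
    · rw [map_smul, hb, smul_smul, map_smul, Finsupp.smul_apply, b.repr_self,
        Finsupp.single_eq_same, smul_eq_mul, mul_one]
    · intro u _ hu
      rw [map_smul, hb, smul_smul, map_smul, Finsupp.smul_apply, b.repr_self,
        Finsupp.single_eq_of_ne (Ne.symm hu), smul_zero]
    · intro h
      exact absurd (Finset.mem_univ _) h
  rw [ha, map_smul, Finsupp.smul_apply, smul_eq_mul, mul_comm] at h1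
  exact (mul_left_cancel₀ ht h1).symm

theorem exists_eig {a : A.H} (ha0 : a ≠ 0) {β : K} (ha : A.frobH a = β • a) :
    ∃ t, α t = β := by
  by_contra hcon
  push Not at hcon
  apply ha0
  rw [← b.sum_repr a]
  refine Finset.sum_eq_zero fun t _ => ?_
  have h1 : b.repr a t = 0 := by
    by_contra hne
    exact hcon t (repr_eig b α hb ha t hne)
  rw [h1, zero_smul]

end basis

variable {I : Type} [Finite I] (g : I → ℕ) (hg : ∀ i, 0 < g i) {q : ℕ} (hq : 1 < q)
  (x : (Σ i, Fin (g i)) → ℤ) (hx : Good g q x)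

include hg hq hx in
/-- **The Kunneth formula, with the eigenvalues of Frobenius.** -/
theorem exists_classes_eig {s : ℕ} (hA : IsAbelian A q s (fun i => weil q (polys g x i))) :
    ∃ (J : Type) (_ : Fintype J) (c : J → ℕ) (D E' : J → A.CH), IsFamily A c D ∧
      IsDual A c D E' ∧
      (∀ l, eigenspace A (q ^ s) l ≤ Submodule.span K
        {a | ∃ j, A.dim - c j = l ∧ a = A.cl (E' j)}) ∧
      (∀ (χ : ℚ[X]), χ ≠ 0 → Indep q (fun i => weil q (polys g x i)) {ρ : ℂ | aeval ρ χ = 0} →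
        ∀ ρ : K, aeval ρ χ = 0 → ∀ (a : A.H) (β : K), a ≠ 0 → A.frobH a = β • a →
          ∀ m : ℤ, β * ρ = ((q ^ s : ℕ) : K) ^ m → ∃ l : ℕ, β = ((q ^ s : ℕ) : K) ^ l) ∧
      ∀ T : RelData A, IsRel (q ^ s) T → IsIndependent T q s (fun i => weil q (polys g x i)) →
        ∀ (i j : ℤ) (m : T.M), T.InvM (q ^ s) i j m →
          m = ∑ t, T.times (D t) (T.pair (E' t) m) := by
  obtain ⟨n, b, α, hb, hα, hα0, hgood⟩ := exists_good_basis g hq x hx hA
  have hs := hA.pos
  have hQ1 : 1 < q ^ s := Nat.one_lt_pow hs.ne' hq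
  have hX1 : (Polynomial.X - 1 : ℚ[X]) ≠ 0 := by
    have := Polynomial.X_sub_C_ne_zero (1 : ℚ)
    rwa [map_one] at this
  have h1 : ∀ t (c : ℤ), α t = ((q ^ s : ℕ) : K) ^ c →
      ∃ l : ℕ, α t = ((q ^ s : ℕ) : K) ^ l ∧ b t ∈ NK A l := by
    intro t c hc
    exact hgood _ hX1 (SE.indep_one g hg (by omega) x hx) 1
      (by rw [map_sub, aeval_X, map_one, sub_self]) t c (by rw [mul_one]; exact hc)
  obtain ⟨J, hJ, c, D, E', hdual, hD, hE, hN⟩ := exists_dual hA hQ1 b α hb h1
  have hN' := span_dual hA hQ1 b α hb h1 hdual hE hN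
  have hfam : IsFamily A c D :=
    ⟨hD, hdual.le, fun k hk => exists_codim hA hQ1 b α hb h1 hN hk⟩
  refine ⟨J, hJ, c, D, E', hfam, hdual, fun l => ?_, ?_, fun T hT hrk i j m hm => ?_⟩
  · refine le_trans ?_ (hN' l)
    intro a ha
    rw [mem_eigenspace] at ha
    rw [← b.sum_repr a]
    refine Submodule.sum_mem _ fun t _ => ?_
    by_cases h0 : b.repr a t = 0
    · rw [h0, zero_smul]
      exact Submodule.zero_mem _
    · have h2 := repr_eig b α hb ha t h0
      obtain ⟨k, hk1, hk2⟩ := h1 t l (by rw [h2, zpow_natCast])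
      rw [h2] at hk1
      obtain rfl := pow_inj hQ1 hk1
      exact Submodule.smul_mem _ _ hk2
  · intro χ hχ hind ρ hρ a β ha0 ha m hm
    obtain ⟨t, rfl⟩ := exists_eig b α hb ha0 ha
    obtain ⟨l, hl, -⟩ := hgood χ hχ hind ρ hρ t m hm
    exact ⟨l, hl⟩
  · obtain ⟨χ, hχ, hind, hkillψ⟩ := hrk i j
    obtain ⟨P, hP, hmix⟩ := exists_kill b α hb hα hα0 χ ((((q ^ s : ℕ) : ℚ)) ^ j) (by
      intro ρ hρ t ht
      obtain ⟨l, -, hl⟩ := hgood χ hχ hind ρ hρ t j (by rw [ht]; push_cast; rfl)
      exact ⟨l, hl⟩)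
    have hV1 : ∀ m ∈ invSub T (q ^ s) i j, T.frobM m ∈ invSub T (q ^ s) i j :=
      fun m hm => inv_frob hT hm
    have hV2 : ∀ m ∈ invSub T (q ^ s) i j, T.act A.frob (T.frobM m) =
        ((q ^ s : ℕ) : ℚ) ^ j • m := fun m hm => hm.2
    have hV : ∀ m ∈ invSub T (q ^ s) i j, T.act A.frob m ∈ invSub T (q ^ s) i j := fun m hm =>
      stable_of _ T.frobM _ _ hV1 hV2 χ (coeff_zero_ne hind) hkillψ hm
    have hR : ∀ m ∈ invSub T (q ^ s) i j,
        aeval (T.act A.frob) (rev χ (((q ^ s : ℕ) : ℚ) ^ j)) m = 0 :=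
      fun m hm => aeval_rev_op _ T.frobM _ _ hV1 hV2 χ hkillψ hm
    exact rel_core hA hT hdual P _ hP
        (fun w => act_proj_mix hA hdual hN (hmix w)) _ hV hR hm

/-- `HasOrder` and the virtual set -/
theorem hasOrder_iff {Q : ℕ} (hQ : Q ≠ 0) {N : ℕ → ℤ} {W : MonoidAlgebra ℤ K} (hW : IsSp N W)
    (m c : ℤ) : HasOrder K Q N m c ↔ W.coeff ((Q : K) ^ m) = c := by
  have hQK : (Q : K) ≠ 0 := by exact_mod_cast hQ
  constructor
  · rintro ⟨V, hV, rfl⟩
    have h1 : IsSp N (MonoidAlgebra.ofCoeff V) := isSp_iff.2 hV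
    exact hW.unique h1 (zpow_ne_zero _ hQK)
  · intro h
    exact ⟨W.coeff, isSp_iff.1 hW, h⟩

include hg hq hx in
/-- **The reduction.** -/
theorem blochSoule_indep : BlochSouleForIndep q (fun i => weil q (polys g x i)) := by
  intro K _ _ A s hA u hu v hv T hT hpure heff hrk e
  classical
  obtain ⟨J, hJ, c, D, E, hF, hdual, hspan, hgood, hmain⟩ := exists_classes_eig g hg hq x hx hA
  have hs := hA.pos
  have hQ1 : 1 < q ^ s := Nat.one_lt_pow hs.ne' hq
  have hQ0 : q ^ s ≠ 0 := by omega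
  set Q := q ^ s with hQdef
  have hQK : (Q : K) ≠ 0 := by exact_mod_cast hQ0
  have hexp : ∀ (i j : ℤ), ∀ m ∈ T.grM i j, m = ∑ t, T.times (D t) (T.pair (E t) m) :=
    fun i j m hm => hmain T hT hrk i j m (hpure i j m hm)
  obtain ⟨W0, hW1, hW2, hW3⟩ := hu
  obtain ⟨V0, χ, hV1, hχ, hind, hV2⟩ := hv
  obtain ⟨W, hW⟩ : ∃ W : MonoidAlgebra ℤ K, W.coeff = W0 := ⟨MonoidAlgebra.ofCoeff W0, rfl⟩
  obtain ⟨V, hV⟩ : ∃ V : MonoidAlgebra ℤ K, V.coeff = V0 := ⟨MonoidAlgebra.ofCoeff V0, rfl⟩
  subst hW hV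
  have hWs := isSp_iff.2 hW1
  have hVs := isSp_iff.2 hV1
  have hWV := hWs.mul hVs
  have hconv : ∀ m : ℤ, (W * V).coeff ((Q : K) ^ m) =
      ∑ j, V.coeff ((Q : K) ^ (m - ((A.dim - c j : ℕ) : ℤ))) := by
    intro m
    refine coeff_conv (w := fun j => A.dim - c j) hQK (fun h => pow_inj hQ1 h) (fun l => ?_) m
      fun a b ha hb hab => ?_
    · rw [hW3, finrank_eig hA hdual hspan]
    · obtain ⟨y, hy0, hy⟩ := hW2 a ha
      exact hgood χ hχ hind b (hV2 b hb) y a hy0 hy m hab
  -- the defects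
  set δN : ℤ → ℤ := fun r => chiN T r - V.coeff ((Q : K) ^ (e - r)) with hδN
  set δM : ℤ → ℤ := fun r => chiM T r - (W * V).coeff ((Q : K) ^ (A.dim + e - r)) with hδM
  have hNiff : ∀ r, BlochSouleN T Q v e r ↔ FiniteN T r ∧ δN r = 0 := by
    intro r
    unfold BlochSouleN
    rw [hasOrder_iff hQ0 hVs, hδN]
    beta_reduce
    rw [sub_eq_zero, eq_comm (a := V.coeff _)]
  have hMiff : ∀ r, BlochSouleM T Q u v e r ↔ FiniteM T r ∧ δM r = 0 := by
    intro r
    unfold BlochSouleM
    rw [hasOrder_iff hQ0 hWV, hδM]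
    beta_reduce
    rw [sub_eq_zero, eq_comm (a := (W * V).coeff _)]
  have hsum : ∀ r, (∀ t, FiniteN T (r - c t)) → δM r = ∑ t, δN (r - c t) := by
    intro r hf
    rw [hδM, hδN]
    beta_reduce
    rw [Finset.sum_sub_distrib, hconv]
    congr 1
    · exact chiM_sum hdual hT hexp r hf
    · refine Finset.sum_congr rfl fun t _ => ?_
      congr 2
      have h1 := hdual.le t
      push_cast [h1]
      ring
  have hranks : ∀ r, FiniteM T r ↔ ∀ t, FiniteN T (r - c t) := finiteM_iff hdual hT hexp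
  have hup : ∀ r, (∀ t, BlochSouleN T Q v e (r - c t)) → BlochSouleM T Q u v e r := by
    intro r h
    have hf : ∀ t, FiniteN T (r - c t) := fun t => (h t).1
    refine (hMiff r).2 ⟨(hranks r).2 hf, ?_⟩
    rw [hsum r hf]
    exact Finset.sum_eq_zero fun t _ => ((hNiff _).1 (h t)).2
  -- the order of the zeta function of `U` for small `r`
  obtain ⟨r0, hr0⟩ : ∃ r0 : ℤ, ∀ r < r0, V.coeff ((Q : K) ^ (e - r)) = 0 := by
    have hinj : Function.Injective fun m : ℤ => (Q : K) ^ m := by
      intro a b hab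
      beta_reduce at hab
      have h1 : ((Q : ℚ) ^ a : ℚ) = (Q : ℚ) ^ b := by
        have h2 : (((Q : ℚ) ^ a : ℚ) : K) = (((Q : ℚ) ^ b : ℚ) : K) := by
          push_cast
          exact hab
        exact_mod_cast h2
      exact zpow_right_injective₀ (by positivity) (by
        have : (1 : ℚ) < Q := by exact_mod_cast hQ1
        exact this.ne') h1
    obtain ⟨M, hM⟩ := (V.coeff.support.preimage (fun m : ℤ => (Q : K) ^ m)
      hinj.injOn).bddAbove
    refine ⟨e - M, fun r hr => ?_⟩
    by_contra hne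
    have h1 : e - r ∈ (V.coeff.support.preimage (fun m : ℤ => (Q : K) ^ m) hinj.injOn) := by
      rw [Finset.mem_preimage, Finsupp.mem_support_iff]
      exact hne
    have h2 := hM h1
    omega
  have hbelow : ∀ R : ℤ, (∀ r ≤ R, BlochSouleM T Q u v e r) →
      ∀ r ≤ R, BlochSouleN T Q v e r := by
    intro R hb
    have hneg : ∀ r < min 0 r0, BlochSouleN T Q v e r := by
      intro r hr
      have h4 : ∀ k : ℕ, T.grN (2 * r - k) r = ⊥ := fun k =>
        heff _ r (lt_of_lt_of_le hr (min_le_left _ _))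
      refine (hNiff r).2 ⟨⟨fun k => ?_, 0, fun k _ => h4 k⟩, ?_⟩
      · rw [h4 k]
        infer_instance
      · rw [hδN]
        beta_reduce
        rw [hr0 r (lt_of_lt_of_le hr (min_le_right _ _)),
          chiN_eq (k0 := 0) fun k _ => h4 k, Finset.range_zero, Finset.sum_empty, sub_zero]
    have main : ∀ (n : ℕ) (r : ℤ), r ≤ R → r < min 0 r0 + n → BlochSouleN T Q v e r := by
      intro n
      induction n with
      | zero => intro r _ hr; exact hneg r (by simpa using hr)
      | succ n ihn =>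
        intro r hr hr2
        have hlow : ∀ r' < r, BlochSouleN T Q v e r' := fun r' hr' =>
          ihn r' (by omega) (by push_cast at hr2; omega)
        obtain ⟨hfin, hδ'⟩ := (hMiff r).1 (hb r hr)
        have hfin' := (hranks r).1 hfin
        obtain ⟨j0, hj0⟩ := hF.exists_eq 0 (Nat.zero_le _)
        have hfr : FiniteN T r := by
          have h5 := hfin' j0
          rwa [hj0, Nat.cast_zero, sub_zero] at h5
        refine (hNiff r).2 ⟨hfr, ?_⟩
        rw [hsum r hfin'] at hδ'
        have h6 : ∀ j, δN (r - c j) = if c j = 0 then δN r else 0 := by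
          intro j
          by_cases hj : c j = 0
          · rw [if_pos hj, hj, Nat.cast_zero, sub_zero]
          · rw [if_neg hj]
            exact ((hNiff _).1 (hlow (r - c j) (by omega))).2
        rw [Finset.sum_congr rfl fun j _ => h6 j, ← Finset.sum_filter, Finset.sum_const,
          nsmul_eq_mul] at hδ'
        refine (mul_eq_zero.1 hδ').resolve_left ?_
        have h7 : 0 < (Finset.univ.filter fun j => c j = 0).card :=
          Finset.card_pos.2 ⟨j0, Finset.mem_filter.2 ⟨Finset.mem_univ _, hj0⟩⟩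
        exact_mod_cast h7.ne'
    intro r hr
    exact main ((r - min 0 r0).toNat + 1) r hr (by push_cast; omega)
  constructor
  · intro r
    rw [hranks r]
    constructor
    · intro h k hk
      obtain ⟨t, rfl⟩ := hF.exists_eq k hk
      exact h t
    · intro h t
      exact h (c t) (hdual.le t)
  · intro r h
    exact hup r fun t => h (c t) (hdual.le t)
  · intro R
    exact ⟨hbelow R, fun h r hr => hup r fun t => h _ (by omega)⟩
  · exact ⟨fun h r => hbelow r (fun r' _ => h r') r le_rfl, fun h r => hup r fun t => h _⟩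

end Pool.Agent.N205.RT
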