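import Mathlib
import Pool.Agent.Y156.L.Props
import Pool.Agent.N205.RT.Defs

/-!
# Perfectness of the motivic cup product pairings: definitions
-/

set_option autoImplicit false

namespace Pool.Agent.N205.RT

open Polynomial Pool.Agent.Y156.L

open Pool.Agent.N205.SE (Indep)

variable {K : Type} [Field K] {A : AbelianData K}

/-- The data attached to a smooth projective scheme `X` and a surjective morphism `φ : A × Z ⟶ X` of
relative dimension `s`: the sum `V` of the motivic cohomology groups `H^i(X, ℚ(j))`, the cup product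
pairings, followed by the degree, and, for the `s`-th power `h` of a polarization of `A × Z`, the maps
`pull = φ^*`, `pushH = φ_* (h · )`, `pullH = h · φ^*`, `push = φ_*`. -/
structure Dominated (T : RelData A) where
  /-- the sum of the groups of `X` -/
  V : Type
  [group : AddCommGroup V]
  [module : Module ℚ V]
  /-- the group `H^i(X, ℚ(j))` -/
  gr : ℤ → ℤ → Submodule ℚ V
  /-- the cup product, followed by the degree -/
  B : V →ₗ[ℚ] V →ₗ[ℚ] ℚ
  pull : V →ₗ[ℚ] T.M
  pushH : T.M →ₗ[ℚ] V
  pullH : V →ₗ[ℚ] T.M
  push : T.M →ₗ[ℚ] V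

attribute [instance] Dominated.group Dominated.module

/-- The degrees of the maps; `s` is the relative dimension. -/
structure IsGradedDominated {T : RelData A} (X : Dominated T) (s : ℤ) : Prop where
  pull_mem : ∀ {i j : ℤ} {v : X.V}, v ∈ X.gr i j → T.DegM i j (X.pull v)
  pushH_mem : ∀ {i j : ℤ} {m : T.M}, T.DegM i j m → X.pushH m ∈ X.gr i j
  pullH_mem : ∀ {i j : ℤ} {v : X.V}, v ∈ X.gr i j → T.DegM (i + 2 * s) (j + s) (X.pullH v)
  push_mem : ∀ {i j : ℤ} {m : T.M}, T.DegM i j m → X.push m ∈ X.gr (i - 2 * s) (j - s)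

/-- The formal properties of these maps; `n` is the degree of `h` on the fibres of `φ`, and
`s` is the relative dimension. -/
structure IsDominated {T : RelData A} (B : CupProduct T) (X : Dominated T) (s : ℤ) : Prop where
  graded : IsGradedDominated X s
  degree : ∃ n : ℚ, n ≠ 0 ∧ (∀ v : X.V, X.pushH (X.pull v) = n • v) ∧
    ∀ v : X.V, X.push (X.pullH v) = n • v
  left : ∀ (m : T.M) (v : X.V), X.B (X.pushH m) v = B.cupM m (X.pullH v)
  right : ∀ (v : X.V) (m : T.M), X.B v (X.push m) = B.cupM (X.pull v) m

/-- The pairing `H^i(X, ℚ(j)) × H^(2 e - i)(X, ℚ(e - j)) → ℚ` is perfect. -/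
def PerfectDominated {T : RelData A} (X : Dominated T) (e i j : ℤ) : Prop :=
  (X.B.domRestrict₁₂ (X.gr i j) (X.gr (2 * e - i) (e - j))).IsPerfPair

/-- The pairings `H^(i - 2 k)(Z, ℚ(j - k)) × H^(2 d - (i - 2 k))(Z, ℚ(d - (j - k))) → ℚ`,
`0 ≤ k ≤ dim A`, are perfect; `d` is the dimension of `Z`. -/
def PerfectBase {T : RelData A} (B : CupProduct T) (d i j : ℤ) : Prop :=
  ∀ k : ℕ, k ≤ A.dim → PerfectN B d (i - 2 * k) (j - k)

/-- The pairing `H^i(X, ℚ(j)) × H^(2 e - i)(X, ℚ(e - j)) → ℚ` is perfect for all
smooth projective schemes `X` of any dimension `e = r - s` with a surjective morphism from `A × Z`, which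
has dimension `r`, to `X`. -/
def PerfectBelow {T : RelData A} (B : CupProduct T) (r i j : ℤ) : Prop :=
  ∀ (X : Dominated T) (e s : ℤ), IsDominated B X s → e + s = r → PerfectDominated X e i j

/-- For all cup products `B` and all `d`, `i`, `j`:
* the cup product pairing
  `H^i(A × Z, ℚ(j)) × H^(2 (dim A + d) - i)(A × Z, ℚ(dim A + d - j)) → ℚ` is perfect if and
  only if the pairings in `PerfectBase` are perfect;
* if this is the case then the pairings in `PerfectBelow` are perfect. -/
def CupReduction (T : RelData A) : Prop :=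
  ∀ B : CupProduct T, IsCupProduct B → ∀ d i j : ℤ,
    (PerfectM B (A.dim + d) i j ↔ PerfectBase B d i j) ∧
      (PerfectBase B d i j → PerfectBelow B (A.dim + d) i j)

/-- `CupForIndep q f`: for every abelian variety `A` as in `IsAbelian` there are
finitely many products `D t` of divisor classes on `A`, such that for all `T` (motivic cohomology)
relative to any smooth projective scheme `Z` of any dimension `d`, with the formal properties, pure
and with independent eigenvalues of Frobenius: the Kunneth formula
`H^i(A × Z, ℚ(j)) = ⨁ D t × H^(i - 2 c t)(Z, ℚ(j - c t))` holds, and `CupReduction` holds. -/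
def CupForIndep (q : ℕ) {I : Type} (f : I → ℤ[X]) : Prop :=
  ∀ (K : Type) [Field K] [CharZero K] (A : AbelianData K) (s : ℕ), IsAbelian A q s f →
    ∃ (J : Type) (_ : Fintype J) (c : J → ℕ) (D : J → A.CH), IsFamily A c D ∧
      ∀ T : RelData A, IsRel (q ^ s) T → T.IsPure (q ^ s) → IsIndependent T q s f →
        T.Kunneth (q ^ s) c D ∧ CupReduction T

end Pool.Agent.N205.RT
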