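import Mathlib
import Pool.Agent.N205.RT.Main
import Pool.Agent.N205.RT.PerfDefs

/-!
# Perfectness of the motivic cup product pairings
-/

set_option autoImplicit false
set_option linter.unusedSectionVars false

namespace Pool.Agent.N205.RT

open Module Polynomial Pool.Agent.Y156.L Pool.Agent.W484.TB Pool.Agent.W484.HS
  Pool.Agent.W521.Frob Pool.Agent.W521.Count Pool.Agent.W521.Bad Pool.Agent.W521.Descent
  Pool.Agent.W521.Density

open Pool.Agent.N205.SE (Indep)

variable {K : Type} [Field K] [CharZero K] {A : AbelianData K}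

theorem perfect_dominated {T : RelData A} {B : CupProduct T} {X : Dominated T} {e s' r i j : ℤ}
    (hX : IsDominated B X s') (he : e + s' = r) (h : PerfectM B r i j) :
    PerfectDominated X e i j := by
  obtain ⟨n, hn, hd1, hd2⟩ := hX.degree
  have hi : 2 * e - i + 2 * s' = 2 * r - i := by rw [← he]; ring
  have hj : e - j + s' = r - j := by rw [← he]; ring
  have hi' : 2 * r - i - 2 * s' = 2 * e - i := by rw [← he]; ring
  have hj' : r - j - s' = e - j := by rw [← he]; ring
  have hL := h.bijective_left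
  have hR := h.bijective_right
  refine ⟨⟨?_, ?_⟩, ⟨?_, ?_⟩⟩
  · -- injectivity, left
    rw [injective_iff_map_eq_zero]
    intro v hv
    have h1 : (⟨X.pull v, hX.graded.pull_mem v.2⟩ : T.grM i j) = 0 := by
      refine (injective_iff_map_eq_zero _).1 hL.1 _ ?_
      refine LinearMap.ext fun m => ?_
      have h2 : X.push m ∈ X.gr (2 * e - i) (e - j) := by
        have := hX.graded.push_mem m.2
        rwa [hi', hj'] at this
      have h3 := LinearMap.congr_fun hv ⟨X.push m, h2⟩
      exact (hX.right v m).symm.trans h3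
    have h2 : X.pull v = 0 := congrArg Subtype.val h1
    have h3 := hd1 v
    rw [h2, map_zero] at h3
    exact Subtype.ext ((smul_eq_zero.1 h3.symm).resolve_left hn)
  · -- surjectivity, left
    intro φ
    let ψ : T.grM (2 * r - i) (r - j) →ₗ[ℚ] ℚ := φ.comp (X.push.restrict fun m hm => by
      have := hX.graded.push_mem (show T.DegM _ _ m from hm)
      rwa [hi', hj'] at this)
    obtain ⟨m, hm⟩ := hL.2 ψ
    refine ⟨n⁻¹ • ⟨X.pushH m, hX.graded.pushH_mem m.2⟩, ?_⟩
    refine LinearMap.ext fun w => ?_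
    have h1 : T.DegM (2 * r - i) (r - j) (X.pullH w) := by
      have := hX.graded.pullH_mem w.2
      rwa [hi, hj] at this
    have h2 := LinearMap.congr_fun hm ⟨X.pullH w, h1⟩
    have h3 : ψ ⟨X.pullH w, h1⟩ = n * φ w := by
      have h4 : ψ ⟨X.pullH w, h1⟩ = φ (n • w) := by
        refine congrArg φ (Subtype.ext ?_)
        exact hd2 w
      rw [h4, map_smul, smul_eq_mul]
    rw [map_smul]
    change n⁻¹ * X.B (X.pushH m) w = φ w
    rw [hX.left]
    have h5 : B.cupM m (X.pullH w) = n * φ w := h2.trans h3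
    rw [h5, inv_mul_cancel_left₀ hn]
  · -- injectivity, right
    rw [injective_iff_map_eq_zero]
    intro w hw
    have h1 : T.DegM (2 * r - i) (r - j) (X.pullH w) := by
      have := hX.graded.pullH_mem w.2
      rwa [hi, hj] at this
    have h2 : (⟨X.pullH w, h1⟩ : T.grM (2 * r - i) (r - j)) = 0 := by
      refine (injective_iff_map_eq_zero _).1 hR.1 _ ?_
      refine LinearMap.ext fun m => ?_
      have h3 := LinearMap.congr_fun hw ⟨X.pushH m, hX.graded.pushH_mem m.2⟩
      exact (hX.left m w).symm.trans h3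
    have h3 : X.pullH w = 0 := congrArg Subtype.val h2
    have h4 := hd2 w
    rw [h3, map_zero] at h4
    exact Subtype.ext ((smul_eq_zero.1 h4.symm).resolve_left hn)
  · -- surjectivity, right
    intro φ
    let ψ : T.grM i j →ₗ[ℚ] ℚ := φ.comp (X.pushH.restrict fun m hm => hX.graded.pushH_mem hm)
    obtain ⟨m, hm⟩ := hR.2 ψ
    have h0 : X.push m ∈ X.gr (2 * e - i) (e - j) := by
      have := hX.graded.push_mem m.2
      rwa [hi', hj'] at this
    refine ⟨n⁻¹ • ⟨X.push m, h0⟩, ?_⟩
    refine LinearMap.ext fun v => ?_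
    have h2 := LinearMap.congr_fun hm ⟨X.pull v, hX.graded.pull_mem v.2⟩
    have h3 : ψ ⟨X.pull v, hX.graded.pull_mem v.2⟩ = n * φ v := by
      have h4 : ψ ⟨X.pull v, hX.graded.pull_mem v.2⟩ = φ (n • v) := by
        refine congrArg φ (Subtype.ext ?_)
        exact hd1 v
      rw [h4, map_smul, smul_eq_mul]
    rw [map_smul]
    change n⁻¹ * X.B v (X.push m) = φ v
    rw [hX.right]
    have h5 : B.cupM (X.pull v) m = n * φ v := h2.trans h3
    rw [h5, inv_mul_cancel_left₀ hn]

variable {I : Type} [Finite I] (g : I → ℕ) (hg : ∀ i, 0 < g i) {q : ℕ} (hq : 1 < q)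
  (x : (Σ i, Fin (g i)) → ℤ) (hx : Good g q x)

include hg hq hx

theorem cup_indep : CupForIndep q (fun i => weil q (polys g x i)) := by
  intro K _ _ A s hA
  obtain ⟨J, hJ, c, D, hF, hmain⟩ := perfect_indep g hg hq x hx K A s hA
  refine ⟨J, hJ, c, D, hF, fun T hT hpure hind => ?_⟩
  obtain ⟨h1, h2⟩ := hmain T hT hpure hind
  refine ⟨h1, fun B hB d i j => ⟨h2 B hB d i j, fun h X e s' hX he => ?_⟩⟩
  exact perfect_dominated hX he ((h2 B hB d i j).2 h)

end Pool.Agent.N205.RT
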