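import Mathlib
import Pool.Agent.Y156.L.Props
import Pool.Agent.N205.RT.Defs

/-!
# The generalized Tate-Beilinson conjecture for products with a scheme: definitions
-/

set_option autoImplicit false

namespace Pool.Agent.N205.RT

open Polynomial Pool.Agent.Y156.L

open Pool.Agent.N205.SE (Indep)

variable {K : Type} [Field K] {A : AbelianData K}

/-- The Frobenius endomorphism of `A` respects the degrees. -/
def FrobGraded (T : RelData A) : Prop :=
  ∀ {i j : ℤ} {m : T.M}, T.DegM i j m → T.DegM i j (T.app A.frob m)

/-- The Frobenius endomorphism of `U` satisfies, on the groups `H^i(A × U, j)`, for all `i` and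
`j`, a nonzero rational polynomial such that no power of a root of one of the `f l` is a product of
powers of `q` and of roots of this polynomial (`Indep`). In `ℓ`-adic (co)homology this is a condition
on the eigenvalues of the Frobenius endomorphism of `U`. -/
def IsIndependentAll (T : RelData A) (q : ℕ) {I : Type} (f : I → ℤ[X]) : Prop :=
  ∀ i j : ℤ, ∃ χ : ℚ[X], χ ≠ 0 ∧ Indep q f {ρ : ℂ | aeval ρ χ = 0} ∧
    ∀ m, T.DegM i j m → aeval T.frobM χ m = 0

/-- The eigenvalue `Q ^ j` of the Frobenius endomorphism of `U` on `H^i(U, j)` is semisimple: if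
`F n = Q ^ j n + u` and `F u = Q ^ j u`, then `u = 0` (there is no Jordan block). -/
def SemisimpleN (T : RelData A) (Q : ℕ) (i j : ℤ) : Prop :=
  ∀ n : T.N, T.DegN i j n → ∀ u : T.N, T.FN n = T.scaleN ((Q : ℚ) ^ j) n + u →
    T.FN u = T.scaleN ((Q : ℚ) ^ j) u → u = 0

/-- The eigenvalue `Q ^ j` of the Frobenius endomorphism of `A × U` on `H^i(A × U, j)` is
semisimple. -/
def SemisimpleM (T : RelData A) (Q : ℕ) (i j : ℤ) : Prop :=
  ∀ m : T.M, T.DegM i j m → ∀ u : T.M,
    T.app A.frob (T.FM m) = T.scaleM ((Q : ℚ) ^ j) m + u →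
      T.app A.frob (T.FM u) = T.scaleM ((Q : ℚ) ^ j) u → u = 0

/-- The conjecture for `U` in bidegree `(i, j)`: the regulator is bijective onto the Frobenius
invariants, and the eigenvalue is semisimple. -/
structure TBN {T R : RelData A} (ρ : Regulator T R) (Q : ℕ) (i j : ℤ) : Prop where
  onto : OntoN ρ Q i j
  injective : InjectiveN ρ i j
  semisimple : SemisimpleN R Q i j

/-- The conjecture for `A × U` in bidegree `(i, j)`: the regulator is bijective onto the Frobenius
invariants, and the eigenvalue is semisimple. -/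
structure TBM {T R : RelData A} (ρ : Regulator T R) (Q : ℕ) (i j : ℤ) : Prop where
  onto : OntoM ρ Q i j
  injective : InjectiveM ρ i j
  semisimple : SemisimpleM R Q i j

/-- The conjecture for `U` in the bidegrees `(i - 2 k, j - k)`, `0 ≤ k ≤ dim A`. -/
def TBBase {T R : RelData A} (ρ : Regulator T R) (Q : ℕ) (i j : ℤ) : Prop :=
  ∀ k : ℕ, k ≤ A.dim → TBN ρ Q (i - 2 * k) (j - k)

/-- The data attached to a scheme `X` whose motive with rational coefficients is a direct summand of the
one of `A × U`, for instance if there is a finite flat surjective morphism from `A × U` to `X` (then the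
maps are the pull-back and the push-forward), or if `X` is a quotient of `A × U` by a finite group: the
groups of `X` for the theories `T` (motivic) and `R` (`ℓ`-adic), the Frobenius endomorphism of `X`, the
regulator, and maps to and from the groups of `A × U`. -/
structure Quotient (T R : RelData A) where
  /-- the sum of the groups of `X` in the theory `T` -/
  TV : Type
  [groupT : AddCommGroup TV]
  [moduleT : Module ℚ TV]
  /-- the sum of the groups of `X` in the theory `R` -/
  RV : Type
  [groupR : AddCommGroup RV]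
  [moduleR : Module ℚ RV]
  /-- the group `H^i(X, j)` in the theory `T` -/
  grT : ℤ → ℤ → Submodule ℚ TV
  /-- the group `H^i(X, j)` in the theory `R` -/
  grR : ℤ → ℤ → Submodule ℚ RV
  /-- the Frobenius endomorphism of `X` -/
  frob : RV → RV
  /-- the regulator for `X` -/
  reg : TV →ₗ[ℚ] RV
  inT : TV →ₗ[ℚ] T.M
  outT : T.M →ₗ[ℚ] TV
  inR : RV →ₗ[ℚ] R.M
  outR : R.M →ₗ[ℚ] RV

attribute [instance] Quotient.groupT Quotient.moduleT Quotient.groupR Quotient.moduleR

/-- The maps respect the degrees. -/
structure IsGradedQuotient {T R : RelData A} (X : Quotient T R) : Prop where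
  inT_mem : ∀ {i j : ℤ} {v : X.TV}, v ∈ X.grT i j → T.DegM i j (X.inT v)
  outT_mem : ∀ {i j : ℤ} {m : T.M}, T.DegM i j m → X.outT m ∈ X.grT i j
  inR_mem : ∀ {i j : ℤ} {w : X.RV}, w ∈ X.grR i j → R.DegM i j (X.inR w)

/-- The formal properties of the maps; `n` is the degree. -/
structure IsQuotient {T R : RelData A} (ρ : Regulator T R) (X : Quotient T R) : Prop where
  graded : IsGradedQuotient X
  frob : ∀ w : X.RV, R.app A.frob (R.FM (X.inR w)) = X.inR (X.frob w)
  reg_in : ∀ v : X.TV, ρ.regM (X.inT v) = X.inR (X.reg v)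
  reg_out : ∀ m : T.M, X.reg (X.outT m) = X.outR (ρ.regM m)
  degree : ∃ n : ℚ, n ≠ 0 ∧ (∀ v : X.TV, X.outT (X.inT v) = n • v) ∧
    ∀ w : X.RV, X.outR (X.inR w) = n • w

/-- The conjecture for `X` in bidegree `(i, j)`. -/
structure TBQ {T R : RelData A} (X : Quotient T R) (Q : ℕ) (i j : ℤ) : Prop where
  onto : ∀ w : X.RV, w ∈ X.grR i j → X.frob w = (Q : ℚ) ^ j • w → ∃ v : X.TV, v ∈ X.grT i j ∧
    X.reg v = w
  injective : ∀ v : X.TV, v ∈ X.grT i j → X.reg v = 0 → v = 0
  semisimple : ∀ w : X.RV, w ∈ X.grR i j → ∀ u : X.RV, X.frob w = (Q : ℚ) ^ j • w + u →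
    X.frob u = (Q : ℚ) ^ j • u → u = 0

/-- The conclusions for a regulator `ρ` from the theory `T` (motivic homology) to the theory `R`
(`ℓ`-adic homology), for all bidegrees `(i, j)`:
* the conjecture for `A × U` in bidegree `(i, j)` implies the conjecture for `U` in the bidegrees
  `(i - 2 k, j - k)`, `0 ≤ k ≤ dim A`;
* the converse is true if `T` is pure with independent eigenvalues of Frobenius;
* the conjecture for `A × U` in bidegree `(i, j)` implies the conjecture for all `X` as in
  `IsQuotient` in bidegree `(i, j)`. -/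
structure TBReduction {T R : RelData A} (ρ : Regulator T R) (q s : ℕ) {I : Type} (f : I → ℤ[X]) :
    Prop where
  base : ∀ i j : ℤ, TBM ρ (q ^ s) i j → TBBase ρ (q ^ s) i j
  product : T.IsPure (q ^ s) → IsIndependent T q s f →
    ∀ i j : ℤ, TBBase ρ (q ^ s) i j → TBM ρ (q ^ s) i j
  quotient : ∀ i j : ℤ, TBM ρ (q ^ s) i j → ∀ X : Quotient T R, IsQuotient ρ X →
    TBQ X (q ^ s) i j

/-- `TBForIndep q f`: for every abelian variety `A` as in `IsAbelian` there are finitely
many products `D t` of divisor classes on `A`, such that for all `R` (`ℓ`-adic homology) relative to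
any scheme `U`, with the formal properties and independent eigenvalues of Frobenius: the Kunneth
formula holds for the Frobenius invariants, and `TBReduction` holds for all `T` (motivic homology)
relative to `U` with a regulator to `R`. -/
def TBForIndep (q : ℕ) {I : Type} (f : I → ℤ[X]) : Prop :=
  ∀ (K : Type) [Field K] [CharZero K] (A : AbelianData K) (s : ℕ), IsAbelian A q s f →
    ∃ (J : Type) (_ : Fintype J) (c : J → ℕ) (D : J → A.CH), IsFamily A c D ∧
      ∀ R : RelData A, IsRel (q ^ s) R → FrobGraded R → IsIndependentAll R q f →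
        R.Kunneth (q ^ s) c D ∧ ∀ (T : RelData A) (ρ : Regulator T R), IsRel (q ^ s) T →
          IsRegulator ρ → TBReduction ρ q s f

end Pool.Agent.N205.RT
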