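import Mathlib
import Pool.Agent.N205.RT.Main
import Pool.Agent.N205.RT.TBDefs

/-!
# The generalized Tate-Beilinson conjecture for products with a scheme
-/

set_option autoImplicit false
set_option linter.unusedSectionVars false

namespace Pool.Agent.N205.RT

open Module Polynomial Pool.Agent.Y156.L Pool.Agent.W484.TB Pool.Agent.W484.HS
  Pool.Agent.W521.Frob Pool.Agent.W521.Count Pool.Agent.W521.Bad Pool.Agent.W521.Descent
  Pool.Agent.W521.Density

open Pool.Agent.N205.SE (Indep)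

section algebra

variable {M : Type*} [AddCommGroup M] [Module ℚ M]

theorem exists_geom {F ψ : Module.End ℚ M} (hc : Commute F ψ) (μ : ℚ) (l : ℕ) :
    ∃ S : Module.End ℚ M, Commute S (F * ψ - algebraMap ℚ _ μ) ∧ Commute S F ∧
      (F * ψ) ^ l - algebraMap ℚ _ (μ ^ l) = S * (F * ψ - algebraMap ℚ _ μ) := by
  have hμ : ∀ x : Module.End ℚ M, Commute x (algebraMap ℚ _ μ) := fun x =>
    (Algebra.commutes μ x).symm
  have hG : Commute (F * ψ) (F * ψ - algebraMap ℚ _ μ) :=
    (Commute.refl _).sub_right (hμ _)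
  have hGF : Commute (F * ψ) F := ((Commute.refl F).mul_left hc.symm)
  refine ⟨∑ i ∈ Finset.range l, (F * ψ) ^ i * (algebraMap ℚ _ μ) ^ (l - 1 - i), ?_, ?_, ?_⟩
  · refine Commute.sum_left _ _ _ fun i _ => ?_
    refine Commute.mul_left (hG.pow_left i) ?_
    exact ((hμ (F * ψ - algebraMap ℚ _ μ)).symm).pow_left _
  · refine Commute.sum_left _ _ _ fun i _ => ?_
    exact Commute.mul_left (hGF.pow_left i) ((hμ F).symm.pow_left _)
  · rw [map_pow]
    exact ((hμ (F * ψ)).geom_sum₂_mul l).symm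

theorem exists_diff {F ψ : Module.End ℚ M} (hc : Commute F ψ) (μ : ℚ) (χ : ℚ[X]) :
    ∃ S : Module.End ℚ M, Commute S (F * ψ - algebraMap ℚ _ μ) ∧
      F ^ χ.natDegree * aeval ψ χ - aeval F (rev χ μ) = S * (F * ψ - algebraMap ℚ _ μ) := by
  choose S hS hSF hS' using fun l => exists_geom hc μ l
  have hμ : ∀ x : Module.End ℚ M, Commute x (algebraMap ℚ _ μ) := fun x =>
    (Algebra.commutes μ x).symm
  have hGF : Commute F (F * ψ - algebraMap ℚ _ μ) :=
    ((Commute.refl F).mul_right hc).sub_right (hμ F)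
  refine ⟨∑ l ∈ Finset.range (χ.natDegree + 1), χ.coeff l • (F ^ (χ.natDegree - l) * S l), ?_, ?_⟩
  · refine Commute.sum_left _ _ _ fun l _ => Commute.smul_left ?_ _
    exact Commute.mul_left (hGF.pow_left _) (hS l)
  · rw [aeval_eq_sum_range, Finset.mul_sum, rev, map_sum, ← Finset.sum_sub_distrib, Finset.sum_mul]
    refine Finset.sum_congr rfl fun l hl => ?_
    have hl' : l ≤ χ.natDegree := by
      have := Finset.mem_range.1 hl
      omega
    have h1 : F ^ χ.natDegree * (χ.coeff l • ψ ^ l) =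
        χ.coeff l • (F ^ (χ.natDegree - l) * (F * ψ) ^ l) := by
      rw [mul_smul_comm, hc.mul_pow, ← mul_assoc, ← pow_add, Nat.sub_add_cancel hl']
    have h2 : aeval F (C (χ.coeff l * μ ^ l) * X ^ (χ.natDegree - l)) =
        χ.coeff l • (F ^ (χ.natDegree - l) * algebraMap ℚ (Module.End ℚ M) (μ ^ l)) := by
      rw [map_mul, aeval_C, map_pow, aeval_X, map_mul, mul_assoc, ← Algebra.smul_def,
        Algebra.commutes]
    rw [h1, h2, ← smul_sub, ← mul_sub, hS' l, smul_mul_assoc, mul_assoc]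

theorem aeval_comm {F ψ : Module.End ℚ M} (hc : Commute F ψ) (P : ℚ[X]) (χ : ℚ[X]) :
    Commute (aeval F P) (aeval ψ χ) := by
  have h1 : Commute (aeval F P) ψ := by
    have h2 : Commute ψ (aeval F P) := by
      induction P using Polynomial.induction_on' with
      | add p q hp hq =>
        rw [map_add]
        exact hp.add_right hq
      | monomial n a =>
        rw [aeval_monomial]
        exact Commute.mul_right (Algebra.commutes a ψ).symm (hc.symm.pow_right n)
    exact h2.symm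
  induction χ using Polynomial.induction_on' with
  | add p q hp hq =>
    rw [map_add]
    exact hp.add_right hq
  | monomial n a =>
    rw [aeval_monomial]
    exact Commute.mul_right (Algebra.commutes a _).symm (h1.pow_right n)

/-- `rev χ μ` is nilpotent on generalized eigenvectors. -/
theorem aeval_rev_pow {F ψ : Module.End ℚ M} (hc : Commute F ψ) (μ : ℚ) (χ : ℚ[X]) (N : ℕ) :
    ∀ m : M, aeval ψ χ m = 0 → ((F * ψ - algebraMap ℚ _ μ) ^ N) m = 0 →
      aeval F (rev χ μ ^ N) m = 0 := by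
  obtain ⟨S, hS, hS'⟩ := exists_diff hc μ χ
  induction N with
  | zero =>
    intro m _ hm
    rw [pow_zero, Module.End.one_apply] at hm
    rw [pow_zero, map_one, Module.End.one_apply, hm]
  | succ N ih =>
    intro m hχ hm
    have h1 : aeval F (rev χ μ) m = -(S * (F * ψ - algebraMap ℚ _ μ)) m := by
      rw [← hS', LinearMap.sub_apply, Module.End.mul_apply, hχ, map_zero, zero_sub, neg_neg]
    rw [pow_succ, map_mul, Module.End.mul_apply]
    refine ih _ ?_ ?_
    · rw [← Module.End.mul_apply, (aeval_comm hc _ _).symm.eq, Module.End.mul_apply, hχ, map_zero]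
    · rw [h1, map_neg, ← Module.End.mul_apply, ← mul_assoc,
        ← (hS.pow_right N).eq, mul_assoc, ← pow_succ, Module.End.mul_apply, hm, map_zero, neg_zero]

end algebra

variable {K : Type} [Field K] [CharZero K] {A : AbelianData K}

section

variable {J : Type} [Fintype J] {c : J → ℕ} {D E : J → A.CH} {Q : ℕ}

theorem frob_times_eq {R : RelData A} (hR : IsRel Q R) {l : ℕ} {b : A.CH} (hb : b ∈ A.codim l)
    (n : R.N) : R.act A.frob (R.frobM (R.times b n)) = (Q : ℚ) ^ l • R.times b (R.frobN n) := by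
  rw [hR.frob_times, hR.act_frob_times _ hb]

/-- `F - Q ^ j` -/
noncomputable def nu (R : RelData A) (Q : ℕ) (j : ℤ) : Module.End ℚ R.M :=
  R.act A.frob * R.frobM - algebraMap ℚ (Module.End ℚ R.M) ((Q : ℚ) ^ j)

theorem nu_apply {R : RelData A} {j : ℤ} (m : R.M) :
    nu R Q j m = R.act A.frob (R.frobM m) - (Q : ℚ) ^ j • m := rfl

theorem tb_base (hF : IsFamily A c D) (h : IsDual A c D E) (hQ : Q ≠ 0) {T R : RelData A}
    (hT : IsRel Q T) (hR : IsRel Q R) {ρ : Regulator T R} (hc : IsRegulator ρ) (i j : ℤ)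
    (h0 : TBM ρ Q i j) : TBBase ρ Q i j := by
  classical
  have hQ0 : (Q : ℚ) ≠ 0 := by exact_mod_cast hQ
  intro k hk
  obtain ⟨t, rfl⟩ := hF.exists_eq k hk
  have hpow : ((Q : ℚ) ^ (c t) : ℚ) * (Q : ℚ) ^ (j - c t) = (Q : ℚ) ^ j := by
    rw [← zpow_natCast, ← zpow_add₀ hQ0]
    congr 1
    ring
  refine ⟨?_, ?_, ?_⟩
  · intro w hw
    have h1 := inv_times hQ hR (h.left t) hw
    rw [sub_add_cancel, sub_add_cancel] at h1
    obtain ⟨m, hm1, hm2⟩ := h0.onto _ h1
    change ρ.cM m = _ at hm2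
    refine ⟨T.pair (E t) m, hT.pair_mem (by have := h.le t; omega) (h.right t) hm1, ?_⟩
    change ρ.cN (T.pair (E t) m) = w
    rw [reg_push hc, hm2, dualpair hR h t t w, if_pos rfl]
  · intro n hn hcn
    change ρ.cN n = 0 at hcn
    have h1 := hT.times_mem (h.left t) hn
    rw [sub_add_cancel, sub_add_cancel] at h1
    have h2 := h0.injective _ h1 (by change ρ.cM _ = 0; rw [reg_mul hc, hcn, map_zero])
    have h3 := dualpair hT h t t n
    rw [h2, map_zero, if_pos rfl] at h3
    exact h3.symm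
  · intro n hn u hu1 hu2
    have hu1' : R.frobN n = (Q : ℚ) ^ (j - c t) • n + u := hu1
    have hu2' : R.frobN u = (Q : ℚ) ^ (j - c t) • u := hu2
    have h1 := hR.times_mem (h.left t) hn
    rw [sub_add_cancel, sub_add_cancel] at h1
    have h2 : R.times (D t) u = 0 := by
      have h3 := h0.semisimple _ h1 ((Q : ℚ) ^ (c t) • R.times (D t) u) ?_ ?_
      · exact (smul_eq_zero.1 h3).resolve_left (pow_ne_zero _ hQ0)
      · change R.act A.frob (R.frobM (R.times (D t) n)) = (Q : ℚ) ^ j • R.times (D t) n + _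
        rw [frob_times_eq hR (h.left t), hu1', map_add, map_smul, smul_add, smul_smul, hpow]
      · change R.act A.frob (R.frobM ((Q : ℚ) ^ (c t) • R.times (D t) u)) =
          (Q : ℚ) ^ j • ((Q : ℚ) ^ (c t) • R.times (D t) u)
        rw [map_smul, map_smul, frob_times_eq hR (h.left t), hu2', map_smul, smul_smul, smul_smul,
          smul_smul, mul_assoc, hpow, mul_comm]
    have h3 := dualpair hR h t t u
    rw [h2, map_zero, if_pos rfl] at h3
    exact h3.symm

theorem tb_product (h : IsDual A c D E) (hQ : Q ≠ 0) {T R : RelData A}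
    (hT : IsRel Q T) (hR : IsRel Q R) {ρ : Regulator T R} (hc : IsRegulator ρ) (i j : ℤ)
    (hexpR : ∀ m ∈ R.grM i j, nu R Q j (nu R Q j m) = 0 →
      m = ∑ t, R.times (D t) (R.pair (E t) m))
    (hexpT : ∀ m ∈ T.grM i j, m = ∑ t, T.times (D t) (T.pair (E t) m))
    (h0 : TBBase ρ Q i j) : TBM ρ Q i j := by
  classical
  have hQ0 : (Q : ℚ) ≠ 0 := by exact_mod_cast hQ
  have hpow : ∀ t, ((Q : ℚ) ^ (c t) : ℚ) * (Q : ℚ) ^ (j - c t) = (Q : ℚ) ^ j := by
    intro t
    rw [← zpow_natCast, ← zpow_add₀ hQ0]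
    congr 1
    ring
  refine ⟨?_, ?_, ?_⟩
  · intro w hw
    have hw' := inv_iff.1 hw
    have hexp : w = ∑ t, R.times (D t) (R.pair (E t) w) := by
      refine hexpR w hw'.1 ?_
      have h1 : nu R Q j w = 0 := by rw [nu_apply, hw'.2, sub_self]
      rw [h1, map_zero]
    have h1 := fun t => inv_pair hQ hR h hw hexp t
    choose n hn1 hn2 using fun t => (h0 (c t) (h.le t)).onto _ (h1 t)
    refine ⟨∑ t, T.times (D t) (n t), ?_, ?_⟩
    · change _ ∈ T.grM i j
      refine Submodule.sum_mem _ fun t _ => ?_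
      have h2 := hT.times_mem (h.left t) (hn1 t)
      rwa [sub_add_cancel, sub_add_cancel] at h2
    · change ρ.cM _ = w
      rw [map_sum]
      conv_rhs => rw [hexp]
      refine Finset.sum_congr rfl fun t _ => ?_
      have h3 : ρ.cN (n t) = R.pair (E t) w := hn2 t
      rw [reg_mul hc, h3]
  · intro m hm hcm
    change ρ.cM m = 0 at hcm
    rw [hexpT m hm]
    refine Finset.sum_eq_zero fun t _ => ?_
    have h1 : T.pair (E t) m = 0 := by
      refine (h0 (c t) (h.le t)).injective _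
        (hT.pair_mem (by have := h.le t; omega) (h.right t) hm) ?_
      change ρ.cN _ = 0
      rw [reg_push hc, hcm, map_zero]
    rw [h1, map_zero]
  · intro m hm u hu1 hu2
    have hu1' : R.act A.frob (R.frobM m) = (Q : ℚ) ^ j • m + u := hu1
    have hu2' : R.act A.frob (R.frobM u) = (Q : ℚ) ^ j • u := hu2
    have hν : nu R Q j m = u := by rw [nu_apply, hu1', add_sub_cancel_left]
    have hν2 : nu R Q j u = 0 := by rw [nu_apply, hu2', sub_self]
    have hexp : m = ∑ t, R.times (D t) (R.pair (E t) m) := by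
      refine hexpR m hm ?_
      rw [hν, hν2]
    -- the components
    set z : J → R.N := fun t => R.pair (E t) m with hz
    set u' : J → R.N := fun t => R.frobN (z t) - (Q : ℚ) ^ (j - c t) • z t with hu'
    have hu : u = ∑ t, R.times (D t) ((Q : ℚ) ^ (c t) • u' t) := by
      have h1 : u = R.act A.frob (R.frobM m) - (Q : ℚ) ^ j • m := by
        rw [hu1', add_sub_cancel_left]
      rw [h1]
      conv_lhs => rw [hexp]
      rw [map_sum, map_sum, Finset.smul_sum, ← Finset.sum_sub_distrib]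
      refine Finset.sum_congr rfl fun t _ => ?_
      rw [frob_times_eq hR (h.left t), hu']
      beta_reduce
      rw [map_smul, map_sub, map_smul, smul_sub, smul_smul, hpow]
    have hpairu : ∀ t, R.pair (E t) u = (Q : ℚ) ^ (c t) • u' t := by
      intro t
      rw [hu]
      exact pair_sum hR h t _
    have hFu' : ∀ t, R.frobN (u' t) = (Q : ℚ) ^ (j - c t) • u' t := by
      intro t
      have h1 : R.act A.frob (R.frobM u) = ∑ t, R.times (D t)
          ((Q : ℚ) ^ (c t) • R.frobN ((Q : ℚ) ^ (c t) • u' t)) := by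
        conv_lhs => rw [hu]
        rw [map_sum, map_sum]
        refine Finset.sum_congr rfl fun t _ => ?_
        rw [frob_times_eq hR (h.left t), map_smul (R.times (D t))]
      have h2 := congrArg (R.pair (E t)) h1
      rw [pair_sum hR h, hu2', map_smul, hpairu, map_smul, smul_smul, smul_smul, ← hpow t] at h2
      have h3 : ((Q : ℚ) ^ (c t) * (Q : ℚ) ^ (c t)) • R.frobN (u' t) =
          ((Q : ℚ) ^ (c t) * (Q : ℚ) ^ (c t)) • ((Q : ℚ) ^ (j - c t) • u' t) := by
        rw [← h2, smul_smul]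
        congr 1
        ring
      have h4 : ((Q : ℚ) ^ (c t) * (Q : ℚ) ^ (c t)) ≠ 0 :=
        mul_ne_zero (pow_ne_zero _ hQ0) (pow_ne_zero _ hQ0)
      exact smul_right_injective _ h4 h3
    have h0' : ∀ t, u' t = 0 := by
      intro t
      refine (h0 (c t) (h.le t)).semisimple (z t)
        (hR.pair_mem (by have := h.le t; omega) (h.right t) hm) (u' t) ?_ (hFu' t)
      change R.frobN (z t) = (Q : ℚ) ^ (j - c t) • z t + u' t
      rw [hu', add_sub_cancel]
    rw [hu]
    exact Finset.sum_eq_zero fun t _ => by rw [h0' t, smul_zero, map_zero]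

theorem tb_quotient {T R : RelData A} {ρ : Regulator T R} {i j : ℤ} (h0 : TBM ρ Q i j)
    {X : Quotient T R} (hX : IsQuotient ρ X) : TBQ X Q i j := by
  obtain ⟨n, hn, hd1, hd2⟩ := hX.degree
  have hinj : ∀ w : X.RV, X.inR w = 0 → w = 0 := by
    intro w hw
    have h1 := hd2 w
    rw [hw, map_zero] at h1
    exact (smul_eq_zero.1 h1.symm).resolve_left hn
  refine ⟨?_, ?_, ?_⟩
  · intro w hw hF
    have h1 : R.InvM Q i j (X.inR w) := by
      refine ⟨hX.graded.inR_mem hw, ?_⟩
      rw [hX.frob, hF, map_smul]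
      rfl
    obtain ⟨m, hm1, hm2⟩ := h0.onto _ h1
    refine ⟨n⁻¹ • X.outT m, Submodule.smul_mem _ _ (hX.graded.outT_mem hm1), ?_⟩
    rw [map_smul, hX.reg_out, hm2, hd2, smul_smul, inv_mul_cancel₀ hn, one_smul]
  · intro v hv hreg
    have h1 : X.inT v = 0 := h0.injective _ (hX.graded.inT_mem hv) (by rw [hX.reg_in, hreg, map_zero])
    have h2 := hd1 v
    rw [h1, map_zero] at h2
    exact (smul_eq_zero.1 h2.symm).resolve_left hn
  · intro w hw u hu1 hu2
    refine hinj _ (h0.semisimple (X.inR w) (hX.graded.inR_mem hw) _ ?_ ?_)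
    · rw [hX.frob, hu1, map_add, map_smul]
      rfl
    · rw [hX.frob, hu2, map_smul]
      rfl

end

variable {I : Type} [Finite I] (g : I → ℕ) (hg : ∀ i, 0 < g i) {q : ℕ} (hq : 1 < q)
  (x : (Σ i, Fin (g i)) → ℤ) (hx : Good g q x)

include hg hq hx in
/-- **The Kunneth formula, for generalized eigenvectors.** -/
theorem exists_classes_gen {s : ℕ} (hA : IsAbelian A q s (fun i => weil q (polys g x i))) :
    ∃ (J : Type) (_ : Fintype J) (c : J → ℕ) (D E' : J → A.CH), IsFamily A c D ∧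
      IsDual A c D E' ∧ q ^ s ≠ 0 ∧
      (∀ T : RelData A, IsRel (q ^ s) T → IsIndependent T q s (fun i => weil q (polys g x i)) →
        ∀ (i j : ℤ) (m : T.M), T.InvM (q ^ s) i j m →
          m = ∑ t, T.times (D t) (T.pair (E' t) m)) ∧
      ∀ R : RelData A, IsRel (q ^ s) R → FrobGraded R →
        IsIndependentAll R q (fun i => weil q (polys g x i)) →
        ∀ (i j : ℤ), ∀ m ∈ R.grM i j, nu R (q ^ s) j (nu R (q ^ s) j m) = 0 →
          m = ∑ t, R.times (D t) (R.pair (E' t) m) := by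
  obtain ⟨n, b, α, hb, hα, hα0, hgood⟩ := exists_good_basis g hq x hx hA
  have hs := hA.pos
  have hQ1 : 1 < q ^ s := Nat.one_lt_pow hs.ne' hq
  have hX1 : (Polynomial.X - 1 : ℚ[X]) ≠ 0 := by
    have := Polynomial.X_sub_C_ne_zero (1 : ℚ)
    rwa [map_one] at this
  have h1 : ∀ t (c : ℤ), α t = ((q ^ s : ℕ) : K) ^ c →
      ∃ l : ℕ, α t = ((q ^ s : ℕ) : K) ^ l ∧ b t ∈ NK A l := by
    intro t c hc
    exact hgood _ hX1 (SE.indep_one g hg (by omega) x hx) 1
      (by rw [map_sub, aeval_X, map_one, sub_self]) t c (by rw [mul_one]; exact hc)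
  obtain ⟨J, hJ, c, D, E', hdual, hD, hE, hN⟩ := exists_dual hA hQ1 b α hb h1
  have hfam : IsFamily A c D :=
    ⟨hD, hdual.le, fun k hk => exists_codim hA hQ1 b α hb h1 hN hk⟩
  refine ⟨J, hJ, c, D, E', hfam, hdual, by omega, fun T hT hrk i j m hm => ?_,
    fun T hT hgr hrk i j m hm hgen => ?_⟩
  · obtain ⟨χ, hχ, hind, hkillψ⟩ := hrk i j
    obtain ⟨P, hP, hmix⟩ := exists_kill b α hb hα hα0 χ ((((q ^ s : ℕ) : ℚ)) ^ j) (by
      intro ρ hρ t ht
      obtain ⟨l, -, hl⟩ := hgood χ hχ hind ρ hρ t j (by rw [ht]; push_cast; rfl)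
      exact ⟨l, hl⟩)
    have hV1 : ∀ m ∈ invSub T (q ^ s) i j, T.frobM m ∈ invSub T (q ^ s) i j :=
      fun m hm => inv_frob hT hm
    have hV2 : ∀ m ∈ invSub T (q ^ s) i j, T.act A.frob (T.frobM m) =
        ((q ^ s : ℕ) : ℚ) ^ j • m := fun m hm => hm.2
    have hV : ∀ m ∈ invSub T (q ^ s) i j, T.act A.frob m ∈ invSub T (q ^ s) i j := fun m hm =>
      stable_of _ T.frobM _ _ hV1 hV2 χ (coeff_zero_ne hind) hkillψ hm
    have hR : ∀ m ∈ invSub T (q ^ s) i j,
        aeval (T.act A.frob) (rev χ (((q ^ s : ℕ) : ℚ) ^ j)) m = 0 :=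
      fun m hm => aeval_rev_op _ T.frobM _ _ hV1 hV2 χ hkillψ hm
    exact rel_core hA hT hdual P _ hP
        (fun w => act_proj_mix hA hdual hN (hmix w)) _ hV hR hm
  · obtain ⟨χ, hχ, hind, hkillψ⟩ := hrk i j
    obtain ⟨P, hP, hmix⟩ := exists_kill b α hb hα hα0 χ ((((q ^ s : ℕ) : ℚ)) ^ j) (by
      intro ρ hρ t ht
      obtain ⟨l, -, hl⟩ := hgood χ hχ hind ρ hρ t j (by rw [ht]; push_cast; rfl)
      exact ⟨l, hl⟩)
    have hcomm : Commute (T.act A.frob) T.frobM := by
      refine LinearMap.ext fun m => ?_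
      rw [Module.End.mul_apply, Module.End.mul_apply, hT.frob_act]
    let ν : Module.End ℚ T.M := nu T (q ^ s) j
    have hFν : Commute (T.act A.frob) ν :=
      ((Commute.refl _).mul_right hcomm).sub_right (Algebra.commutes _ _).symm
    let V : Submodule ℚ T.M := T.grM i j ⊓ LinearMap.ker (ν ^ 2)
    have hV : ∀ m ∈ V, T.act A.frob m ∈ V := by
      rintro m ⟨hm1, hm2⟩
      refine ⟨hgr hm1, ?_⟩
      have hm3 : (ν ^ 2) m = 0 := LinearMap.mem_ker.1 hm2
      change _ ∈ LinearMap.ker (ν ^ 2)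
      rw [LinearMap.mem_ker, ← Module.End.mul_apply, ← (hFν.pow_right 2).eq, Module.End.mul_apply,
        hm3, map_zero]
    have hR : ∀ m ∈ V, aeval (T.act A.frob) (rev χ (((q ^ s : ℕ) : ℚ) ^ j) ^ 2) m = 0 := by
      rintro m ⟨hm1, hm2⟩
      exact aeval_rev_pow hcomm _ χ 2 m (hkillψ m hm1) (LinearMap.mem_ker.1 hm2)
    have hgen' : (ν ^ 2) m = 0 := by
      rw [pow_two, Module.End.mul_apply]
      exact hgen
    exact rel_core hA hT hdual P _ (hP.pow_right)
        (fun w => act_proj_mix hA hdual hN (hmix w)) V hV hR ⟨hm, LinearMap.mem_ker.2 hgen'⟩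

include hg hq hx in
theorem tb_indep : TBForIndep q (fun i => weil q (polys g x i)) := by
  intro K _ _ A s hA
  obtain ⟨J, hJ, c, D, E', hF, hdual, hQ, hT', hR'⟩ := exists_classes_gen g hg hq x hx hA
  refine ⟨J, hJ, c, D, hF, fun R hR hgr hind => ⟨?_, fun T ρ hT hc => ⟨?_, ?_, ?_⟩⟩⟩
  · refine kunneth_of hQ hR hdual fun i j m hm => ?_
    have hm' := inv_iff.1 hm
    refine hR' R hR hgr hind i j m hm'.1 ?_
    have h1 : nu R (q ^ s) j m = 0 := by rw [nu_apply, hm'.2, sub_self]
    rw [h1, map_zero]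
  · exact fun i j h => tb_base hF hdual hQ hT hR hc i j h
  · intro hpure hindT i j h
    exact tb_product hdual hQ hT hR hc i j (hR' R hR hgr hind i j)
      (fun m hm => hT' T hT hindT i j m (hpure i j m hm)) h
  · exact fun i j h X hX => tb_quotient h hX

end Pool.Agent.N205.RT
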